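import Mathlib
import Pool.Agent.V1179.Peak.Diverge

/-!
# A peak set `E` for `A_{1/2}` with `dist(·, E)^{-1/2}` not integrable

Put `y_n = L (n+1) (log₂(n+1) + 1)²` with a large constant `L` and
`E = {1} ∪ {(y_n - i)/(y_n + i)}`. The function
`h(z) = 2/(1-z) + ∑ (2/y_n) (1/(1 - c_n z) + 1/(1 - b_n z))`, where `c_n` is the conjugate of the
`n`-th point and `b_n = y_n/(y_n - 2i)`, has real part at least `1`, and its modulus is comparable
with the sum of the moduli of its terms. Hence `1/h` is Hölder continuous of order `1/2` on the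
closed disc and vanishes exactly on `E`, and `1 - 1/h` is a peak function. The gaps of `E` are
comparable with `1/(n log n)²`, so that the sum of their square roots diverges.
-/

set_option autoImplicit false

namespace Pool.Agent.Results.MP_84bbc2_an.DistNotIntegrable

open Metric Filter Topology MeasureTheory Set

/-- The class `A_α`. -/
def InA (α : ℝ) (f : ℂ → ℂ) : Prop :=
  DifferentiableOn ℂ f (ball 0 1) ∧ ContinuousOn f (closedBall 0 1) ∧
    ∃ C : ℝ, ∀ z w : ℂ, ‖z‖ = 1 → ‖w‖ = 1 → ‖f z - f w‖ ≤ C * ‖z - w‖ ^ α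

/-- Peak sets for `A_α`. -/
def IsPeakSet (α : ℝ) (E : Set ℂ) : Prop :=
  IsClosed E ∧ E ⊆ sphere 0 1 ∧ ∃ f : ℂ → ℂ, InA α f ∧ (∀ z ∈ E, f z = 1) ∧
    ∀ z : ℂ, ‖z‖ = 1 → z ∉ E → ‖f z‖ < 1

theorem result : ∃ E : Set ℂ, IsPeakSet (1 / 2) E ∧
    ¬ IntegrableOn (fun θ : ℝ => infDist (Complex.exp (θ * Complex.I)) E ^ (-(1 / 2 : ℝ)))
      (Ioc 0 (2 * Real.pi)) := by
  refine ⟨V1179.Peak.E, ⟨V1179.Peak.E_compact.isClosed, V1179.Peak.E_sub,
    fun z => 1 - V1179.Peak.F z, ⟨?_, ?_, 12000, ?_⟩, ?_, ?_⟩, ?_⟩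
  · exact (differentiableOn_const 1).sub V1179.Peak.F_diff
  · exact continuousOn_const.sub V1179.Peak.F_cont
  · intro z w hz hw
    have h1 := V1179.Peak.F_holder hw.le hz.le
    have h2 : (1 - V1179.Peak.F z) - (1 - V1179.Peak.F w) = V1179.Peak.F w - V1179.Peak.F z := by
      ring
    rw [h2, ← Real.sqrt_eq_rpow, norm_sub_rev z w]
    exact h1
  · intro z hz
    have h1 : ‖z‖ ≤ 1 := by
      have := V1179.Peak.E_sub hz
      rw [mem_sphere_zero_iff_norm] at this
      exact this.le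
    simp only
    rw [V1179.Peak.F_of_not (fun h => (V1179.Peak.mem_D_iff h1).1 h hz), sub_zero]
  · intro z hz hzE
    exact V1179.Peak.peak ((V1179.Peak.mem_D_iff hz.le).2 hzE)
  · intro hint
    have h1 := hint.2
    rw [hasFiniteIntegral_iff_ofReal
      (Eventually.of_forall fun θ => Real.rpow_nonneg infDist_nonneg _)] at h1
    rw [V1179.Peak.lint_top] at h1
    exact lt_irrefl _ h1

end Pool.Agent.Results.MP_84bbc2_an.DistNotIntegrable
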